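import Pool.Agent.H3RD.W830.RD.Stm

set_option autoImplicit false

/-! Project RD: the exchange lemma. -/

namespace Pool.Agent.W308.RD.Exch

open Finset Pool.Agent.W830.RD
open scoped Classical

section

variable {α : Type} [PartialOrder α]

theorem pos_lt_pos {C : Finset α} {u v : α} (hu : u ∈ C) (h : u < v) : pos C u < pos C v := by
  unfold pos
  apply card_lt_card
  rw [ssubset_iff_of_subset]
  · exact ⟨u, mem_filter.2 ⟨hu, h⟩, fun h' => lt_irrefl _ (mem_filter.1 h').2⟩
  · intro z hz
    rw [mem_filter] at hz ⊢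
    exact ⟨hz.1, hz.2.trans h⟩

theorem pos_inj {C : Finset α} (hC : Chn C) {u v : α} (hu : u ∈ C) (hv : v ∈ C)
    (h : pos C u = pos C v) : u = v := by
  by_contra hne
  rcases hC u hu v hv with h1 | h1
  · have := pos_lt_pos hu (lt_of_le_of_ne h1 hne)
    omega
  · have := pos_lt_pos hv (lt_of_le_of_ne h1 (Ne.symm hne))
    omega

theorem pos_lt_card {C : Finset α} {u : α} (hu : u ∈ C) : pos C u < C.card := by
  unfold pos
  apply card_lt_card
  rw [ssubset_iff_of_subset (filter_subset _ _)]
  exact ⟨u, hu, fun h' => lt_irrefl _ (mem_filter.1 h').2⟩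

theorem exists_pred {C : Finset α} (hC : Chn C) {y : α} (h : 1 ≤ pos C y) :
    ∃ z ∈ C, z < y ∧ pos C z + 1 = pos C y := by
  have hne : (C.filter (fun z => z < y)).Nonempty := by
    rw [← card_pos]
    exact h
  obtain ⟨z, hz, hmax⟩ := exists_max_image _ (fun z => pos C z) hne
  rw [mem_filter] at hz
  refine ⟨z, hz.1, hz.2, ?_⟩
  have h1 : C.filter (fun v => v < y) = insert z (C.filter (fun v => v < z)) := by
    ext v
    rw [mem_filter, mem_insert, mem_filter]
    constructor
    · rintro ⟨hv, hvy⟩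
      by_cases hvz : v = z
      · exact Or.inl hvz
      · right
        refine ⟨hv, ?_⟩
        rcases hC v hv z hz.1 with h2 | h2
        · exact lt_of_le_of_ne h2 hvz
        · have h3 := pos_lt_pos hz.1 (lt_of_le_of_ne h2 (Ne.symm hvz))
          have h4 := hmax v (mem_filter.2 ⟨hv, hvy⟩)
          omega
    · rintro (rfl | ⟨hv, hvz⟩)
      · exact hz
      · exact ⟨hv, hvz.trans hz.2⟩
  have h2 : pos C y = (insert z (C.filter (fun v => v < z))).card := by
    unfold pos
    rw [h1]
  have h3 : z ∉ C.filter (fun v => v < z) := fun h' => lt_irrefl _ (mem_filter.1 h').2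
  rw [h2, card_insert_of_notMem h3]
  rfl

theorem bot_of_pos {C : Finset α} (hC : Chn C) {y : α} (hy : y ∈ C) (h : pos C y = 0) :
    ∀ u ∈ C, y ≤ u := by
  intro u hu
  rcases hC y hy u hu with h1 | h1
  · exact h1
  · by_cases hne : u = y
    · rw [hne]
    · have := pos_lt_pos hu (lt_of_le_of_ne h1 hne)
      omega

theorem top_of_pos {C : Finset α} {y : α} (hy : y ∈ C) (h : pos C y + 1 = C.card) :
    ∀ u ∈ C, u ≤ y := by
  intro u hu
  by_contra hle
  have h1 : C.filter (fun z => z < y) ⊆ (C.erase y).erase u := by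
    intro z hz
    rw [mem_filter] at hz
    rw [mem_erase, mem_erase]
    refine ⟨?_, hz.2.ne, hz.1⟩
    rintro rfl
    exact hle hz.2.le
  have h2 := card_le_card h1
  have h3 : u ≠ y := by rintro rfl; exact hle le_rfl
  rw [card_erase_of_mem (mem_erase.2 ⟨h3, hu⟩), card_erase_of_mem hy] at h2
  have h4 : 2 ≤ C.card := by
    have : ({u, y} : Finset α) ⊆ C := by
      intro z hz
      rw [mem_insert, mem_singleton] at hz
      rcases hz with rfl | rfl
      · exact hu
      · exact hy
    have h5 := card_le_card this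
    rw [card_pair h3] at h5
    exact h5
  unfold pos at h
  omega

end

theorem exists_best (α : Type) [Fintype α] [PartialOrder α] :
    ∃ F : Finset (Finset α), Best F := by
  have hne : ((univ : Finset (Finset (Finset α))).filter
      (fun F => Part F (univ : Finset α))).Nonempty := by
    refine ⟨univ.image (fun x : α => ({x} : Finset α)), mem_filter.2 ⟨mem_univ _, ?_⟩⟩
    refine ⟨?_, ?_, ?_, ?_⟩
    · intro C hC x hx y hy
      obtain ⟨a, -, rfl⟩ := mem_image.1 hC
      rw [mem_singleton] at hx hy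
      rw [hx, hy]
      exact Or.inl le_rfl
    · intro C hC
      obtain ⟨a, -, rfl⟩ := mem_image.1 hC
      exact singleton_nonempty a
    · intro C hC C' hC' hne
      obtain ⟨a, -, rfl⟩ := mem_image.1 hC
      obtain ⟨b, -, rfl⟩ := mem_image.1 hC'
      rw [disjoint_singleton]
      rintro rfl
      exact hne rfl
    · ext x
      simp
  obtain ⟨F, hF, hmax⟩ := exists_max_image _ (fun F => sqs F) hne
  exact ⟨F, (mem_filter.1 hF).2, fun F' hF' => hmax F' (mem_filter.2 ⟨mem_univ _, hF'⟩)⟩

theorem main (hI : S_INS) (hN : S_NOPATH) : S_EXCH := by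
  intro α _ _
  obtain ⟨F, hF⟩ := exists_best α
  set ρ : Finset α → ℕ → ℕ := fun C a =>
    (F.filter (fun C'' => Relation.ReflTransGen (Hs F C.card a) C'' C)).card with hρ
  set T : α → ℕ → ℕ → Finset (Finset α) := fun x l a =>
    F.filter (fun C' => C'.card = l ∧ ∃ w ∈ C', pos C' w = a + 1 ∧ x < w) with hT
  set θ : α → ℕ → ℕ → ℕ := fun x l a =>
    if h : (T x l a).Nonempty then (T x l a).inf' h (fun C' => ρ C' a) else Fintype.card α + 1
    with hθ
  have hFc : F.card ≤ Fintype.card α := by
    have h1 : F.card ≤ (F.biUnion id).card :=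
      card_le_card_biUnion (fun C hC C' hC' hne => hF.pt.dj C hC C' hC' hne)
        (fun C hC => hF.pt.ne C hC)
    exact h1.trans (card_le_univ _)
  have hρc : ∀ C a, ρ C a ≤ Fintype.card α := fun C a => (card_filter_le _ _).trans hFc
  have hθc : ∀ x l a, θ x l a ≤ Fintype.card α + 1 := by
    intro x l a
    simp only [hθ]
    split_ifs with h
    · obtain ⟨C', hC'⟩ := h
      exact (inf'_le _ hC').trans ((hρc _ _).trans (Nat.le_succ _))
    · exact le_rfl
  have key : ∀ C1 ∈ F, ∀ C ∈ F, C1.card ≤ C.card → ∀ x ∈ C1, ∀ u ∈ C, pos C u + 1 < C.card →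
      u < x → ρ C (pos C u) < θ x C.card (pos C u) := by
    intro C1 hC1 C hC hcard x hx u hu hpos hux
    simp only [hθ]
    split_ifs with h
    · obtain ⟨C', hC', he⟩ := exists_mem_eq_inf' h (fun C' => ρ C' (pos C u))
      rw [he]
      simp only [hT] at hC'
      rw [mem_filter] at hC'
      obtain ⟨hC'F, hC'c, w, hw, hwp, hxw⟩ := hC'
      have hstep : Hs F C.card (pos C u) C C' := by
        refine ⟨hC, hC'F, rfl, hC'c, fun u' hu' w' hw' hpu hpw => ?_⟩
        have e1 : u' = u := pos_inj (hF.pt.ch C hC) hu' hu hpu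
        have e2 : w' = w := pos_inj (hF.pt.ch C' hC'F) hw' hw (hpw.trans hwp.symm)
        rw [e1, e2]
        exact hux.trans hxw
      have hno := hN α F hF C.card (pos C u) hpos C1 hC1 hcard x hx C hC C' hC'F rfl hC'c u hu w hw
        rfl hwp hux hxw
      simp only [hρ]
      apply card_lt_card
      rw [ssubset_iff_of_subset]
      · refine ⟨C', mem_filter.2 ⟨hC'F, ?_⟩, fun h' => hno (mem_filter.1 h').2⟩
        exact Relation.ReflTransGen.refl
      · intro D hD
        rw [mem_filter] at hD ⊢
        refine ⟨hD.1, ?_⟩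
        rw [hC'c]
        exact hD.2.tail hstep
    · exact Nat.lt_succ_of_le (hρc _ _)
  refine ⟨F, ρ, θ, hF.pt, hρc, hθc, ?_⟩
  intro C1 hC1 C hC hne hcard x hx y hy h1 h2
  have hxy : x ≠ y := by
    rintro rfl
    exact disjoint_left.1 (hF.pt.dj C hC C1 hC1 hne) hy hx
  have hins := hI α F hF C1 hC1 C hC hne hcard x hx
  constructor
  · intro hle
    have hlt : x < y := lt_of_le_of_ne hle hxy
    rcases Nat.eq_zero_or_pos (pos C y) with h0 | h0
    · exact hins.1 fun u hu => lt_of_lt_of_le hlt (bot_of_pos (hF.pt.ch C hC) hy h0 u hu)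
    · obtain ⟨z, hz, hzy, hzp⟩ := exists_pred (hF.pt.ch C hC) h0
      have h3 := h2 z hz hzy
      have hCT : C ∈ T x C.card (pos C z) := by
        simp only [hT]
        rw [mem_filter]
        exact ⟨hC, rfl, y, hy, hzp.symm, hlt⟩
      have h4 : θ x C.card (pos C z) ≤ ρ C (pos C z) := by
        simp only [hθ]
        rw [dif_pos ⟨C, hCT⟩]
        exact inf'_le (fun C' => ρ C' (pos C z)) hCT
      omega
  · intro hle
    have hlt : y < x := lt_of_le_of_ne hle (Ne.symm hxy)
    by_cases htop : pos C y + 1 = C.card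
    · exact hins.2 fun u hu => lt_of_le_of_lt (top_of_pos hy htop u hu) hlt
    · have h3 := h1.resolve_left htop
      have h4 := pos_lt_card hy
      have h5 := key C1 hC1 C hC hcard x hx y hy (by omega) hlt
      omega

end Pool.Agent.W308.RD.Exch
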